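import Pool.Agent.Run7.h412.NR.Iface
import Mathlib

set_option autoImplicit false

/-!
# Piece CNT of project MP_0272f9_lc: weights of the even paths of a graph
-/

namespace Pool.Agent.Run7.h992.NR
open Pool.Agent.Run7.h412.NR

section
variable {V : Type} [Fintype V] [DecidableEq V] (G : SimpleGraph V) [DecidableRel G.Adj]

/-- walks with `m + 1` vertices from `v`, as lists -/
def CF : ℕ → V → Finset (List V)
  | 0, v => {[v]}
  | m + 1, v => (G.neighborFinset v).biUnion fun w => (CF m w).image (fun l => v :: l)

theorem card_CF (m : ℕ) (v : V) : (CF G m v).card ≤ G.maxDegree ^ m := by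
  induction m generalizing v with
  | zero => simp [CF]
  | succ m ih =>
    rw [CF]
    refine Finset.card_biUnion_le.trans ?_
    calc ∑ w ∈ G.neighborFinset v, ((CF G m w).image (fun l => v :: l)).card
        ≤ ∑ w ∈ G.neighborFinset v, G.maxDegree ^ m :=
          Finset.sum_le_sum fun w _ => (Finset.card_image_le).trans (ih w)
      _ = G.degree v * G.maxDegree ^ m := by simp
      _ ≤ G.maxDegree * G.maxDegree ^ m := Nat.mul_le_mul_right _ (G.degree_le_maxDegree v)
      _ = G.maxDegree ^ (m + 1) := by ring

theorem mem_CF (m : ℕ) (v : V) (B : List V) (h : B.IsChain G.Adj) (hl : B.length = m + 1)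
    (hh : B.head? = some v) : B ∈ CF G m v := by
  induction m generalizing v B with
  | zero =>
    match B, hl with
    | [x], _ => simp at hh; subst hh; simp [CF]
  | succ m ih =>
    match B, hl with
    | x :: y :: t, hl =>
      simp at hh
      subst hh
      rw [List.isChain_cons_cons] at h
      simp only [CF, Finset.mem_biUnion, Finset.mem_image]
      exact ⟨y, by simpa using h.1, y :: t, ih y _ h.2 (by simpa using hl) rfl, rfl⟩

theorem card_at (E : Finset (List V)) (hE : ∀ B ∈ E, B.IsChain G.Adj) (m i : ℕ) (v : V)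
    (hi : i ≤ m) :
    (E.filter (fun B => B.length = m + 1 ∧ B[i]? = some v)).card ≤ G.maxDegree ^ m := by
  have hsymm : ∀ l : List V, l.IsChain G.Adj → l.reverse.IsChain G.Adj := by
    intro l hl
    rw [List.isChain_reverse]
    exact hl.imp (fun a b h => h.symm)
  calc (E.filter (fun B => B.length = m + 1 ∧ B[i]? = some v)).card
      ≤ ((CF G i v) ×ˢ (CF G (m - i) v)).card := by
        refine Finset.card_le_card_of_injOn (fun B => ((B.take (i + 1)).reverse, B.drop i)) ?_ ?_
        · intro B hB
          simp only [Finset.coe_filter, Set.mem_setOf_eq] at hB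
          obtain ⟨hBE, hlen, hget⟩ := hB
          have hc := hE B hBE
          simp only [Finset.coe_product, Set.mem_prod, Finset.mem_coe]
          refine ⟨mem_CF G i v _ (hsymm _ (hc.take _)) (by simp; omega) ?_,
            mem_CF G (m - i) v _ (hc.drop _) (by simp; omega) ?_⟩
          · rw [List.head?_reverse, List.getLast?_eq_getElem?]
            simp only [List.length_take, List.getElem?_take]
            have : min (i + 1) B.length - 1 = i := by omega
            rw [this]; simpa using hget
          · rw [List.head?_drop]; exact hget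
        · intro B hB C hC h
          simp only [Prod.mk.injEq, List.reverse_inj] at h
          obtain ⟨h1, h2⟩ := h
          rw [← List.take_append_drop (i + 1) B, ← List.take_append_drop (i + 1) C, h1]
          congr 1
          have e : ∀ D : List V, D.drop (i + 1) = (D.drop i).drop 1 := by
            intro D; rw [List.drop_drop]
          rw [e B, e C, h2]
    _ = (CF G i v).card * (CF G (m - i) v).card := Finset.card_product _ _
    _ ≤ G.maxDegree ^ i * G.maxDegree ^ (m - i) :=
        Nat.mul_le_mul (card_CF G i v) (card_CF G (m - i) v)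
    _ = G.maxDegree ^ m := by rw [← pow_add]; congr 1; omega

end

/-- the weight of one length class through a vertex at a fixed position -/
theorem wt_class {n : ℕ} (G : SimpleGraph (Fin n)) [DecidableRel G.Adj] (q : ℕ) (hq : 0 < q)
    (hqD : 16 * (G.maxDegree * G.maxDegree) ≤ q) (E : Finset (List (Fin n)))
    (hE : ∀ B ∈ E, EvenPath G B) (t i : ℕ) (ht : 1 ≤ t) (hi : i < 2 * t) (v : Fin n) :
    ∑ B ∈ E, (if B.length = 2 * t ∧ B[i]? = some v then ((4 : ℝ) / q) ^ t else 0) ≤
      (1 / 4 : ℝ) ^ t := by
  rw [← Finset.sum_filter, Finset.sum_const, nsmul_eq_mul]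
  have hq' : (0 : ℝ) < q := by exact_mod_cast hq
  have hcard := card_at G E (fun B hB => (hE B hB).2.2.1) (2 * t - 1) i v (by omega)
  have h2t : 2 * t - 1 + 1 = 2 * t := by omega
  rw [h2t] at hcard
  rcases Nat.eq_zero_or_pos G.maxDegree with h0 | h0
  · rw [h0, zero_pow (by omega)] at hcard
    have : (E.filter (fun B => B.length = 2 * t ∧ B[i]? = some v)).card = 0 := by omega
    rw [this]
    simp
  · have hD : (0 : ℝ) < G.maxDegree := by exact_mod_cast h0
    have hqD' : (16 : ℝ) * (G.maxDegree * G.maxDegree) ≤ q := by exact_mod_cast hqD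
    have hw : (4 : ℝ) / q ≤ 1 / (4 * (G.maxDegree : ℝ) ^ 2) := by
      rw [div_le_div_iff₀ hq' (by positivity)]
      nlinarith
    have hw0 : (0 : ℝ) ≤ 4 / q := by positivity
    have hcard' : ((E.filter (fun B => B.length = 2 * t ∧ B[i]? = some v)).card : ℝ) ≤
        (G.maxDegree : ℝ) ^ (2 * t) := by
      calc _ ≤ ((G.maxDegree ^ (2 * t - 1) : ℕ) : ℝ) := by exact_mod_cast hcard
        _ ≤ ((G.maxDegree ^ (2 * t) : ℕ) : ℝ) := by
          exact_mod_cast Nat.pow_le_pow_right h0 (by omega)
        _ = _ := by push_cast; ring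
    calc _ ≤ (G.maxDegree : ℝ) ^ (2 * t) * (1 / (4 * (G.maxDegree : ℝ) ^ 2)) ^ t := by
          apply mul_le_mul hcard' (pow_le_pow_left₀ hw0 hw t) (by positivity) (by positivity)
      _ = (1 / 4 : ℝ) ^ t := by
          rw [pow_mul, ← mul_pow]
          congr 1
          field_simp

theorem sum_quarter (K : ℕ) :
    ∑ t ∈ Finset.range K, (2 * (t : ℝ)) * (1 / 4 : ℝ) ^ t ≤ 1 := by
  have h : ∀ K : ℕ, ∑ t ∈ Finset.range K, (2 * (t : ℝ)) * (1 / 4 : ℝ) ^ t ≤
      8 / 9 - (8 / 9 + 8 / 3 * (K : ℝ)) * (1 / 4 : ℝ) ^ K := by
    intro K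
    induction K with
    | zero => norm_num
    | succ K ih =>
      rw [Finset.sum_range_succ]
      refine (add_le_add_left ih _).trans ?_
      push_cast
      rw [pow_succ]
      have : (0 : ℝ) ≤ (1 / 4 : ℝ) ^ K := by positivity
      nlinarith
  refine (h K).trans ?_
  have : (0 : ℝ) ≤ (8 / 9 + 8 / 3 * (K : ℝ)) * (1 / 4 : ℝ) ^ K := by positivity
  linarith

theorem sum_tail (T K : ℕ) :
    ∑ t ∈ Finset.range K, (if T < t then (1 / 4 : ℝ) ^ t else 0) ≤ 1 / (3 * 4 ^ T) := by
  have h : ∀ K : ℕ, ∑ t ∈ Finset.range (T + 1 + K), (if T < t then (1 / 4 : ℝ) ^ t else 0) ≤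
      (4 / 3) * (1 / 4 : ℝ) ^ (T + 1) - (4 / 3) * (1 / 4 : ℝ) ^ (T + 1 + K) := by
    intro K
    induction K with
    | zero =>
      rw [add_zero, sub_self]
      apply le_of_eq
      apply Finset.sum_eq_zero
      intro t ht
      rw [Finset.mem_range] at ht
      rw [if_neg (by omega)]
    | succ K ih =>
      rw [← add_assoc, Finset.sum_range_succ, if_pos (by omega)]
      refine (add_le_add_left ih _).trans ?_
      rw [pow_succ _ (T + 1 + K)]
      have : (0 : ℝ) ≤ (1 / 4 : ℝ) ^ (T + 1 + K) := by positivity
      linarith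
  have h2 : ∑ t ∈ Finset.range K, (if T < t then (1 / 4 : ℝ) ^ t else 0) ≤
      ∑ t ∈ Finset.range (T + 1 + K), (if T < t then (1 / 4 : ℝ) ^ t else 0) := by
    apply Finset.sum_le_sum_of_subset_of_nonneg
    · intro t; simp only [Finset.mem_range]; omega
    · intro t _ _; split_ifs <;> positivity
  refine h2.trans ((h K).trans ?_)
  have : (0 : ℝ) ≤ (4 / 3) * (1 / 4 : ℝ) ^ (T + 1 + K) := by positivity
  have e : (1 : ℝ) / (3 * 4 ^ T) = (4 / 3) * (1 / 4 : ℝ) ^ (T + 1) := by
    rw [pow_succ, one_div_pow]; field_simp
  rw [e]; linarith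

theorem t_CNT : S_CNT := by
  intro n G _ q hq hqD E hE
  classical
  have hq' : (0 : ℝ) < q := by exact_mod_cast hq
  have hw0 : (0 : ℝ) ≤ 4 / q := by positivity
  -- a bound for the half lengths
  obtain ⟨K, hK⟩ : ∃ K : ℕ, ∀ B ∈ E, B.length / 2 < K := by
    refine ⟨(E.sup fun B => B.length / 2) + 1, fun B hB => ?_⟩
    exact Nat.lt_succ_of_le (Finset.le_sup (f := fun B : List (Fin n) => B.length / 2) hB)
  have hlen : ∀ B ∈ E, B.length = 2 * (B.length / 2) ∧ 1 ≤ B.length / 2 := by
    intro B hB
    obtain ⟨h1, _, _, h4⟩ := hE B hB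
    have h5 : 0 < B.length := List.length_pos_iff.mpr h1
    obtain ⟨k, hk⟩ := h4
    omega
  refine ⟨fun v => ?_, fun T => ?_⟩
  · calc ∑ B ∈ E.filter (fun B => v ∈ B), ((4 : ℝ) / q) ^ (B.length / 2)
        ≤ ∑ B ∈ E.filter (fun B => v ∈ B), ∑ t ∈ Finset.range K, ∑ i ∈ Finset.range (2 * t),
            (if B.length = 2 * t ∧ B[i]? = some v then ((4 : ℝ) / q) ^ t else 0) := by
          apply Finset.sum_le_sum
          intro B hB
          rw [Finset.mem_filter] at hB
          obtain ⟨hBE, hv⟩ := hB
          obtain ⟨i, hi⟩ := List.mem_iff_getElem?.mp hv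
          have hilt : i < B.length := by
            by_contra h
            rw [List.getElem?_eq_none (by omega)] at hi
            simp at hi
          obtain ⟨hl, _⟩ := hlen B hBE
          have nn : ∀ (t i : ℕ), (0 : ℝ) ≤
              (if B.length = 2 * t ∧ B[i]? = some v then ((4 : ℝ) / q) ^ t else 0) := by
            intro t i; split_ifs <;> positivity
          calc ((4 : ℝ) / q) ^ (B.length / 2)
              = (if B.length = 2 * (B.length / 2) ∧ B[i]? = some v then
                  ((4 : ℝ) / q) ^ (B.length / 2) else 0) := by rw [if_pos ⟨hl, hi⟩]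
            _ ≤ ∑ i ∈ Finset.range (2 * (B.length / 2)),
                (if B.length = 2 * (B.length / 2) ∧ B[i]? = some v then
                  ((4 : ℝ) / q) ^ (B.length / 2) else 0) :=
                Finset.single_le_sum (f := fun i => (if B.length = 2 * (B.length / 2) ∧
                  B[i]? = some v then ((4 : ℝ) / q) ^ (B.length / 2) else 0))
                  (fun i _ => nn _ i) (Finset.mem_range.mpr (by omega))
            _ ≤ _ := Finset.single_le_sum (f := fun t => ∑ i ∈ Finset.range (2 * t),
                (if B.length = 2 * t ∧ B[i]? = some v then ((4 : ℝ) / q) ^ t else 0))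
                (fun t _ => Finset.sum_nonneg fun i _ => nn t i)
                (Finset.mem_range.mpr (hK B hBE))
      _ ≤ ∑ B ∈ E, ∑ t ∈ Finset.range K, ∑ i ∈ Finset.range (2 * t),
            (if B.length = 2 * t ∧ B[i]? = some v then ((4 : ℝ) / q) ^ t else 0) := by
          apply Finset.sum_le_sum_of_subset_of_nonneg (Finset.filter_subset _ _)
          intro B _ _
          refine Finset.sum_nonneg fun t _ => Finset.sum_nonneg fun i _ => ?_
          split_ifs <;> positivity
      _ = ∑ t ∈ Finset.range K, ∑ i ∈ Finset.range (2 * t), ∑ B ∈ E,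
            (if B.length = 2 * t ∧ B[i]? = some v then ((4 : ℝ) / q) ^ t else 0) := by
          rw [Finset.sum_comm]
          refine Finset.sum_congr rfl fun t _ => ?_
          rw [Finset.sum_comm]
      _ ≤ ∑ t ∈ Finset.range K, (2 * (t : ℝ)) * (1 / 4 : ℝ) ^ t := by
          refine Finset.sum_le_sum fun t _ => ?_
          calc _ ≤ ∑ i ∈ Finset.range (2 * t), (1 / 4 : ℝ) ^ t := by
                refine Finset.sum_le_sum fun i hi => ?_
                rw [Finset.mem_range] at hi
                exact wt_class G q hq hqD E hE t i (by omega) hi v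
            _ = _ := by simp
      _ ≤ 1 := sum_quarter K
  · calc ∑ B ∈ E.filter (fun B => 2 * T < B.length), ((4 : ℝ) / q) ^ (B.length / 2)
        ≤ ∑ B ∈ E, ∑ v : Fin n, ∑ t ∈ Finset.range K, (if T < t then
            (if B.length = 2 * t ∧ B[0]? = some v then ((4 : ℝ) / q) ^ t else 0) else 0) := by
          rw [Finset.sum_filter]
          apply Finset.sum_le_sum
          intro B hBE
          have nn : ∀ (v : Fin n) (t : ℕ), (0 : ℝ) ≤ (if T < t then
              (if B.length = 2 * t ∧ B[0]? = some v then ((4 : ℝ) / q) ^ t else 0) else 0) := by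
            intro v t; split_ifs <;> positivity
          split_ifs with hT
          · obtain ⟨hl, hl1⟩ := hlen B hBE
            have h0 : 0 < B.length := by omega
            calc ((4 : ℝ) / q) ^ (B.length / 2)
                = (if T < B.length / 2 then (if B.length = 2 * (B.length / 2) ∧
                    B[0]? = some B[0] then ((4 : ℝ) / q) ^ (B.length / 2) else 0) else 0) := by
                  rw [if_pos (by omega), if_pos ⟨hl, List.getElem?_eq_getElem h0⟩]
              _ ≤ ∑ t ∈ Finset.range K, (if T < t then (if B.length = 2 * t ∧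
                    B[0]? = some B[0] then ((4 : ℝ) / q) ^ t else 0) else 0) :=
                  Finset.single_le_sum (f := fun t => (if T < t then (if B.length = 2 * t ∧
                    B[0]? = some B[0] then ((4 : ℝ) / q) ^ t else 0) else 0))
                    (fun t _ => nn _ t) (Finset.mem_range.mpr (hK B hBE))
              _ ≤ _ := Finset.single_le_sum (f := fun v => ∑ t ∈ Finset.range K, (if T < t then
                    (if B.length = 2 * t ∧ B[0]? = some v then ((4 : ℝ) / q) ^ t else 0) else 0))
                    (fun v _ => Finset.sum_nonneg fun t _ => nn v t) (Finset.mem_univ _)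
          · exact Finset.sum_nonneg fun v _ => Finset.sum_nonneg fun t _ => nn v t
      _ = ∑ v : Fin n, ∑ t ∈ Finset.range K, ∑ B ∈ E, (if T < t then
            (if B.length = 2 * t ∧ B[0]? = some v then ((4 : ℝ) / q) ^ t else 0) else 0) := by
          rw [Finset.sum_comm]
          refine Finset.sum_congr rfl fun v _ => ?_
          rw [Finset.sum_comm]
      _ ≤ ∑ v : Fin n, ∑ t ∈ Finset.range K, (if T < t then (1 / 4 : ℝ) ^ t else 0) := by
          refine Finset.sum_le_sum fun v _ => Finset.sum_le_sum fun t _ => ?_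
          split_ifs with hT
          · exact wt_class G q hq hqD E hE t 0 (by omega) (by omega) v
          · simp
      _ ≤ ∑ v : Fin n, 1 / (3 * 4 ^ T) := Finset.sum_le_sum fun v _ => sum_tail T K
      _ = (n : ℝ) / (3 * 4 ^ T) := by
          rw [Finset.sum_const, Finset.card_univ, Fintype.card_fin, nsmul_eq_mul]; ring

end Pool.Agent.Run7.h992.NR
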