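import Pool.Agent.Run7.h992.NR.PolyA

set_option autoImplicit false

/-!
# Piece POLY of project MP_0272f9_lc, part B: sizes of intermediate results, and the theorem
-/

namespace Pool.Agent.NPC.R7h992
open Pool.Agent.Run7.h412.NR

/-! ### Sizes -/

/-- a state of round `k` -/
def Good (n k : ℕ) (s : St) : Prop :=
  (s.1.length ≤ k + 1 ∧ ∀ x ∈ s.1, x < n) ∧ (s.2.length ≤ k + 1 ∧ ∀ x ∈ s.2, x < n)

theorem sz_list_lt {n : ℕ} (l : List ℕ) (h : ∀ x ∈ l, x < n) :
    sz l ≤ l.length * (4 * n + 2) + 1 := by
  refine sz_le_length_mul l (4 * n + 1) fun a ha => ?_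
  have h1 := sz_nat_le a
  have h2 := Poly.size_le_self a
  have h3 := h a ha
  omega

theorem head_lt {n : ℕ} (l : List ℕ) (h : ∀ x ∈ l, x < n) : l.head?.getD 0 < n + 1 := by
  cases l with
  | nil => simp
  | cons a l => have := h a (by simp); simp; omega

/-- bound for the number of states -/
def K (n : ℕ) : ℕ := (n + 1) ^ 3 * (256 * (2 * n + 1) ^ 8)

theorem two_pow_size (n : ℕ) : 2 ^ n.size ≤ 2 * n + 1 := by
  rcases Nat.eq_zero_or_pos n with h | h
  · subst h; simp
  · have h1 : n.size ≠ 0 := by
      intro h2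
      rw [Nat.size_eq_zero] at h2
      omega
    have h2 : n.size - 1 < n.size := by omega
    have h3 := Nat.lt_size.1 h2
    have h4 : 2 ^ n.size = 2 * 2 ^ (n.size - 1) := by
      rw [← pow_succ']; congr 1; omega
    omega

theorem two_pow_Lm (n : ℕ) : 2 ^ Lm n ≤ 256 * (2 * n + 1) ^ 8 := by
  have h : 2 ^ Lm n = 256 * (2 ^ n.size) ^ 8 := by
    unfold Lm Run7.h412.NR.T
    rw [← pow_mul, show (256 : ℕ) = 2 ^ 8 by norm_num, ← pow_add]
    congr 1; ring
  rw [h]
  exact Nat.mul_le_mul_left _ (Nat.pow_le_pow_left (two_pow_size n) 8)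

theorem mem_dedup_aux (L : ℕ) (h : List ℕ) (F : List St) : ∀ (acc : List St) (s : St),
    s ∈ F.foldl (fun acc s => if key L h s ∈ acc.map (key L h) then acc else s :: acc) acc →
      s ∈ F ∨ s ∈ acc := by
  induction F with
  | nil => intro acc s hs; exact Or.inr hs
  | cons t F ih =>
    intro acc s hs
    rw [List.foldl_cons] at hs
    rcases ih _ s hs with h1 | h1
    · exact Or.inl (List.mem_cons_of_mem _ h1)
    · split_ifs at h1
      · exact Or.inr h1
      · rcases List.mem_cons.1 h1 with h2 | h2
        · exact Or.inl (by rw [h2]; simp)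
        · exact Or.inr h2

theorem mem_dedup {L : ℕ} {h : List ℕ} {F : List St} {s : St} (hs : s ∈ dedup L h F) : s ∈ F := by
  rcases mem_dedup_aux L h F [] s hs with h1 | h1
  · exact h1
  · simp at h1

theorem nodup_dedup_aux (L : ℕ) (h : List ℕ) (F : List St) : ∀ acc : List St,
    (acc.map (key L h)).Nodup →
    ((F.foldl (fun acc s => if key L h s ∈ acc.map (key L h) then acc else s :: acc) acc).map
      (key L h)).Nodup := by
  induction F with
  | nil => intro acc ha; exact ha
  | cons t F ih =>
    intro acc ha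
    rw [List.foldl_cons]
    apply ih
    split_ifs with h1
    · exact ha
    · rw [List.map_cons, List.nodup_cons]
      exact ⟨h1, ha⟩

theorem length_dedup {n : ℕ} (L : ℕ) (h : List ℕ) (F : List St) (k : ℕ)
    (hF : ∀ s ∈ F, Good n k s) : (dedup L h F).length ≤ (n + 1) ^ 3 * 2 ^ L := by
  classical
  have h1 : ((dedup L h F).map (key L h)).Nodup := nodup_dedup_aux L h F [] (by simp)
  have h2 : (dedup L h F).length = ((dedup L h F).map (key L h)).toFinset.card := by
    rw [List.toFinset_card_of_nodup h1, List.length_map]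
  set R : Finset ℕ := Finset.range (n + 1)
  set Q : Finset (List Bool) := Finset.univ.image (fun f : Fin L → Bool => List.ofFn f)
  have h3 : ((dedup L h F).map (key L h)).toFinset ⊆ (R ×ˢ R) ×ˢ (R ×ˢ Q) := by
    intro x hx
    rw [List.mem_toFinset, List.mem_map] at hx
    obtain ⟨s, hs, rfl⟩ := hx
    have hg := hF s (mem_dedup hs)
    simp only [key, Finset.mem_product, R, Finset.mem_range, Q, Finset.mem_image,
      Finset.mem_univ, true_and]
    refine ⟨⟨head_lt _ hg.1.2, head_lt _ hg.2.2⟩, head_lt _ ?_, ?_⟩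
    · intro x hx
      exact hg.2.2 x (List.mem_reverse.1 hx)
    · refine ⟨fun i => decide (i.1 ∈ used h s), ?_⟩
      apply List.ext_getElem
      · simp
      · intro i h1 h2
        simp
  rw [h2]
  refine (Finset.card_le_card h3).trans ?_
  rw [Finset.card_product, Finset.card_product, Finset.card_product]
  have h4 : R.card = n + 1 := Finset.card_range _
  have h5 : Q.card ≤ 2 ^ L := by
    refine Finset.card_image_le.trans ?_
    simp
  rw [h4]
  calc (n + 1) * (n + 1) * ((n + 1) * Q.card) = (n + 1) ^ 3 * Q.card := by ring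
    _ ≤ _ := Nat.mul_le_mul_left _ h5

theorem mem_ext_good {m : List (List Bool)} {c h : List ℕ} {s t : St} {k : ℕ}
    (hs : Good m.length k s) (ht : t ∈ ext m c h s) : Good m.length (k + 1) t := by
  simp only [ext, List.mem_flatMap, List.mem_map, List.mem_filter, List.mem_range] at ht
  obtain ⟨x, hx, y, ⟨hy, _⟩, rfl⟩ := ht
  refine ⟨⟨by simp; exact hs.1.1, ?_⟩, ⟨by simp; exact hs.2.1, ?_⟩⟩
  · intro z hz
    rcases List.mem_cons.1 hz with h1 | h1
    · rw [h1]; exact hx
    · exact hs.1.2 z h1
  · intro z hz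
    rcases List.mem_cons.1 hz with h1 | h1
    · rw [h1]; exact hy
    · exact hs.2.2 z h1

theorem Good.mono {n k : ℕ} {s : St} (h : Good n k s) : Good n (k + 1) s :=
  ⟨⟨h.1.1.trans (by omega), h.1.2⟩, ⟨h.2.1.trans (by omega), h.2.2⟩⟩

theorem mem_start_good {m : List (List Bool)} {c h : List ℕ} {t : St}
    (ht : t ∈ start m c h) : Good m.length 0 t := by
  simp only [start, List.mem_flatMap, List.mem_map, List.mem_filter, List.mem_range] at ht
  obtain ⟨x, hx, y, ⟨hy, _⟩, rfl⟩ := ht
  refine ⟨⟨by simp, ?_⟩, ⟨by simp, ?_⟩⟩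
  · intro z hz
    rw [List.mem_singleton] at hz
    omega
  · intro z hz
    rw [List.mem_singleton] at hz
    omega

theorem length_start (m : List (List Bool)) (c h : List ℕ) :
    (start m c h).length ≤ m.length * m.length := by
  unfold start
  rw [List.length_flatMap]
  have h1 : ∀ (l : List ℕ) (g : ℕ → ℕ), (∀ x, g x ≤ m.length) →
      (l.map g).sum ≤ l.length * m.length := by
    intro l g hg
    induction l with
    | nil => simp
    | cons a l ih =>
      have := hg a
      simp only [List.map_cons, List.sum_cons, List.length_cons]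
      nlinarith
  refine (h1 (List.range m.length) _ fun x => ?_).trans (by rw [List.length_range])
  rw [List.length_map]
  exact (List.length_filter_le _ _).trans (by rw [List.length_range])

/-- the invariant of the rounds -/
def Inv (n k : ℕ) (a : List St × List ℕ) : Prop :=
  a.1.length ≤ K n ∧ (∀ s ∈ a.1, Good n k s) ∧ a.2.length ≤ 2 * (k + 1) ∧ ∀ x ∈ a.2, x < n

theorem inv_start (m : List (List Bool)) (c h : List ℕ) :
    Inv m.length 0 (start m c h, []) := by
  refine ⟨(length_start m c h).trans ?_, fun s hs => mem_start_good hs, by simp, by simp⟩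
  unfold K
  have h1 : m.length * m.length ≤ (m.length + 1) ^ 3 := by nlinarith
  have h2 : 1 ≤ 256 * (2 * m.length + 1) ^ 8 := by
    have : 1 ≤ (2 * m.length + 1) ^ 8 := Nat.one_le_pow _ _ (by omega)
    omega
  calc m.length * m.length ≤ (m.length + 1) ^ 3 * 1 := by omega
    _ ≤ _ := Nat.mul_le_mul_left _ h2

theorem inv_round {m : List (List Bool)} {c h : List ℕ} {k : ℕ} {a : List St × List ℕ}
    (ha : Inv m.length k a) : Inv m.length (k + 1) (Run7.h412.NR.round m c h a) := by
  obtain ⟨h1, h2, h3, h4⟩ := ha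
  unfold Run7.h412.NR.round
  split_ifs with h0
  · cases hc : (closed m a.1).head? with
    | none =>
      have hg : ∀ s ∈ a.1.flatMap (ext m c h), Good m.length (k + 1) s := by
        intro s hs
        obtain ⟨t, ht, hst⟩ := List.mem_flatMap.1 hs
        exact mem_ext_good (h2 t ht) hst
      refine ⟨(length_dedup _ _ _ (k + 1) hg).trans ?_, fun s hs => hg s (mem_dedup hs),
        by simp, by simp⟩
      exact Nat.mul_le_mul_left _ (two_pow_Lm _)
    | some s =>
      have hs : s ∈ a.1 := by
        have := List.mem_of_mem_head? (Option.mem_def.2 hc)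
        exact (List.mem_filter.1 this).1
      have hg := h2 s hs
      refine ⟨h1, fun t ht => (h2 t ht).mono, ?_, ?_⟩
      · simp only [List.length_append, List.length_reverse]
        have := hg.1.1
        have := hg.2.1
        omega
      · intro x hx
        rcases List.mem_append.1 hx with h5 | h5
        · exact hg.1.2 x (List.mem_reverse.1 h5)
        · exact hg.2.2 x (List.mem_reverse.1 h5)
  · exact ⟨h1, fun t ht => (h2 t ht).mono, by omega, h4⟩

theorem inv_iter (m : List (List Bool)) (c h : List ℕ) (k : ℕ) :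
    Inv m.length k ((Run7.h412.NR.round m c h)^[k] (start m c h, [])) := by
  induction k with
  | zero => exact inv_start m c h
  | succ k ih => rw [Function.iterate_succ_apply']; exact inv_round ih

theorem T_le (n : ℕ) : Run7.h412.NR.T n ≤ n + 1 := by
  unfold Run7.h412.NR.T
  have := Poly.size_le_self n
  omega

/-- bound for the size of a state -/
def S (n : ℕ) : ℕ := 2 * ((n + 2) * (4 * n + 2)) + 3

theorem sz_good {n k : ℕ} {s : St} (hk : k ≤ n + 1) (hs : Good n k s) : sz s ≤ S n := by
  have h1 := sz_list_lt s.1 hs.1.2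
  have h2 := sz_list_lt s.2 hs.2.2
  have h3 : s.1.length * (4 * n + 2) ≤ (n + 2) * (4 * n + 2) :=
    Nat.mul_le_mul_right _ (by have := hs.1.1; omega)
  have h4 : s.2.length * (4 * n + 2) ≤ (n + 2) * (4 * n + 2) :=
    Nat.mul_le_mul_right _ (by have := hs.2.1; omega)
  have h5 : sz s = sz s.1 + sz s.2 + 1 := sz_pair s.1 s.2
  unfold S
  omega

theorem sz_inv {n k : ℕ} {a : List St × List ℕ} (hk : k ≤ n + 1) (ha : Inv n k a) :
    sz a ≤ K n * (S n + 1) + S n + 3 := by
  obtain ⟨h1, h2, h3, h4⟩ := ha
  have e1 := sz_le_length_mul a.1 (S n) fun s hs => sz_good hk (h2 s hs)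
  have e2 : a.1.length * (S n + 1) ≤ K n * (S n + 1) := Nat.mul_le_mul_right _ h1
  have e3 := sz_list_lt a.2 h4
  have e4 : a.2.length * (4 * n + 2) ≤ 2 * (n + 2) * (4 * n + 2) :=
    Nat.mul_le_mul_right _ (by omega)
  have e5 : sz a = sz a.1 + sz a.2 + 1 := sz_pair a.1 a.2
  have e6 : 2 * (n + 2) * (4 * n + 2) + 3 = S n := by unfold S; ring
  omega

/-- the polynomial bounding the sizes in the search -/
noncomputable def bd : Polynomial ℕ :=
  ((Polynomial.X + 1) ^ 3 * (256 * (2 * Polynomial.X + 1) ^ 8)) *
    ((2 * ((Polynomial.X + 2) * (4 * Polynomial.X + 2)) + 3) + 1) +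
    (2 * ((Polynomial.X + 2) * (4 * Polynomial.X + 2)) + 3) + 3

theorem bd_eval (n : ℕ) : bd.eval n = K n * (S n + 1) + S n + 3 := by
  simp [bd, K, S]

variable {α : Type} [TEnc α]

theorem p_find {m : α → List (List Bool)} {c h : α → List ℕ}
    (hm : Poly m) (hc : Poly c) (hh : Poly h) :
    Poly (fun a => find (m a) (c a) (h a)) := by
  obtain ⟨r, hr⟩ := hm.sz_le
  have e1 : Poly (fun a => List.replicate (Run7.h412.NR.T (m a).length) ()) :=
    p_T (UPoly.length hm)
  have e2 : Poly (fun a => (start (m a) (c a) (h a), ([] : List ℕ))) :=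
    Poly.pair (p_start hm hc hh) (Poly.const [])
  have e3 : Poly (fun p : α × (List St × List ℕ) =>
      Run7.h412.NR.round (m p.1) (c p.1) (h p.1) p.2) :=
    p_round (hm.comp (Poly.fst Poly.id)) (hc.comp (Poly.fst Poly.id))
      (hh.comp (Poly.fst Poly.id)) (Poly.snd Poly.id)
  refine (Poly.snd (Poly.iterLen (F := fun a b => Run7.h412.NR.round (m a) (c a) (h a) b)
    e1 e2 e3 (bd.comp r) ?_)).congr fun a => ?_
  · intro a k hk
    rw [List.length_replicate] at hk
    have h1 := inv_iter (m a) (c a) (h a) k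
    have h2 := sz_inv (hk.trans (T_le _)) h1
    rw [← bd_eval] at h2
    rw [Polynomial.eval_comp]
    refine h2.trans (eval_mono bd ?_)
    have h3 := length_lt_sz (m a)
    have h4 := hr a
    omega
  · rw [List.length_replicate]
    rfl

/-- results of the search -/
def Small (n : ℕ) (l : List ℕ) : Prop := l.length ≤ 2 * (n + 2) ∧ ∀ x ∈ l, x < n

theorem small_find (m : List (List Bool)) (c h : List ℕ) : Small m.length (find m c h) := by
  obtain ⟨_, _, h3, h4⟩ := inv_iter m c h (Run7.h412.NR.T m.length)
  refine ⟨?_, h4⟩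
  have := T_le m.length
  unfold find
  omega

theorem sz_small {n : ℕ} {l : List ℕ} (h : Small n l) : sz l ≤ S n := by
  have e3 := sz_list_lt l h.2
  have e4 : l.length * (4 * n + 2) ≤ 2 * (n + 2) * (4 * n + 2) :=
    Nat.mul_le_mul_right _ h.1
  have e6 : 2 * (n + 2) * (4 * n + 2) + 3 = S n := by unfold S; ring
  omega

theorem small_fold (m : List (List Bool)) (r : List Bool) (c : List ℕ) (l : List ℕ) :
    ∀ b : List ℕ, Small m.length b →
      Small m.length (l.foldl (fun a ρ => if a = [] then find m c (labs m r ρ) else a) b) := by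
  induction l with
  | nil => intro b hb; exact hb
  | cons x l ih =>
    intro b hb
    rw [List.foldl_cons]
    apply ih
    split_ifs
    · exact small_find _ _ _
    · exact hb

theorem p_search {m : α → List (List Bool)} {r : α → List Bool} {c : α → List ℕ}
    (hm : Poly m) (hr : Poly r) (hc : Poly c) :
    Poly (fun a => search (m a) (r a) (c a)) := by
  obtain ⟨q, hq⟩ := hm.sz_le
  have e1 : Poly (fun a => List.range (Hc (m a).length)) := (p_Hc (UPoly.length hm)).range
  have f1 : Poly (fun p : α × List ℕ × ℕ => p.1) := Poly.fst Poly.id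
  have f2 : Poly (fun p : α × List ℕ × ℕ => p.2.1) := Poly.fst (Poly.snd Poly.id)
  have f3 : Poly (fun p : α × List ℕ × ℕ => p.2.2) := Poly.snd (Poly.snd Poly.id)
  have e2 : Poly (fun p : α × List ℕ × ℕ => if p.2.1 = [] then
      find (m p.1) (c p.1) (labs (m p.1) (r p.1) p.2.2) else p.2.1) :=
    Poly.ite (Poly.decide_eq f2 (Poly.const []))
      (p_find (hm.comp f1) (hc.comp f1) (p_labs (hm.comp f1) (hr.comp f1) f3)) f2
  refine Poly.foldl (s := fun _ => ([] : List ℕ)) (F := fun a b ρ => if b = [] then
    find (m a) (c a) (labs (m a) (r a) ρ) else b) e1 (Poly.const []) e2 (bd.comp q) ?_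
  intro a k _
  have h1 := sz_small (small_fold (m a) (r a) (c a)
    ((List.range (Hc (m a).length)).take k) [] ⟨by simp, by simp⟩)
  rw [Polynomial.eval_comp]
  refine h1.trans ((?_ : S (m a).length ≤ bd.eval (m a).length).trans (eval_mono bd ?_))
  · rw [bd_eval]; omega
  · have h3 := length_lt_sz (m a)
    have h4 := hq a
    omega

theorem p_step {m : α → List (List Bool)} {r : α → List Bool} {cnt : α → List ℕ}
    (hm : Poly m) (hr : Poly r) (hc : Poly cnt) :
    Poly (fun a => step (m a) (r a) (cnt a)) := by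
  have f1 : Poly (fun p : α × ℕ => p.1) := Poly.fst Poly.id
  have f2 : Poly (fun p : α × ℕ => p.2) := Poly.snd Poly.id
  refine Poly.map (F := fun a v => (cnt a).getD v 0 +
    if v ∈ search (m a) (r a) (cols (m a) (r a) (cnt a)) then 1 else 0)
    (Poly.range_length hm) ?_
  refine Poly.add (Poly.getD (hc.comp f1) f2 (Poly.const 0)) ?_
  refine Poly.ite (p := fun p : α × ℕ =>
    p.2 ∈ search (m p.1) (r p.1) (cols (m p.1) (r p.1) (cnt p.1))) ?_ (Poly.const 1)
    (Poly.const 0)
  exact Poly.decide_mem f2 (p_search (hm.comp f1) (hr.comp f1)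
    (p_cols (hm.comp f1) (hr.comp f1) (hc.comp f1)))

theorem step_inv (m : List (List Bool)) (r : List Bool) (k : ℕ) :
    ((step m r)^[k] (List.replicate m.length 0)).length = m.length ∧
      ∀ x ∈ (step m r)^[k] (List.replicate m.length 0), x < k + 1 := by
  induction k with
  | zero =>
    refine ⟨by simp, ?_⟩
    intro x hx
    have := List.eq_of_mem_replicate hx
    omega
  | succ k ih =>
    rw [Function.iterate_succ_apply']
    set cnt := (step m r)^[k] (List.replicate m.length 0)
    refine ⟨by simp [step], ?_⟩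
    intro x hx
    simp only [step, List.mem_map, List.mem_range] at hx
    obtain ⟨v, _, rfl⟩ := hx
    have h1 : cnt.getD v 0 < k + 1 := by
      rw [List.getD_eq_getElem?_getD]
      cases h : cnt[v]? with
      | none => simp
      | some y => exact ih.2 y (List.mem_of_getElem? h)
    split_ifs <;> omega

theorem t_POLY : S_POLY := by
  change Poly (fun x : List (List Bool) × List Bool => alg x.1 x.2)
  have hm : Poly (fun x : List (List Bool) × List Bool => x.1) := Poly.fst Poly.id
  have hr : Poly (fun x : List (List Bool) × List Bool => x.2) := Poly.snd Poly.id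
  have e1 : Poly (fun x : List (List Bool) × List Bool => List.replicate (M x.1.length) ()) :=
    p_M (UPoly.length hm)
  have e2 : Poly (fun x : List (List Bool) × List Bool => List.replicate x.1.length 0) :=
    (Poly.map (F := fun _ _ => 0) (Poly.range_length hm) (Poly.const 0)).congr fun x => by
      rw [List.map_const', List.length_range]
  have e3 : Poly (fun p : (List (List Bool) × List Bool) × List ℕ => step p.1.1 p.1.2 p.2) :=
    p_step (Poly.fst (Poly.fst Poly.id)) (Poly.snd (Poly.fst Poly.id)) (Poly.snd Poly.id)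
  have e4 : Poly (fun x : List (List Bool) × List Bool =>
      (step x.1 x.2)^[M x.1.length] (List.replicate x.1.length 0)) := by
    refine (Poly.iterLen (F := fun (x : List (List Bool) × List Bool) b => step x.1 x.2 b)
      e1 e2 e3 (Polynomial.X * (4 * (Polynomial.X ^ 2 + 1) + 2) + 1) ?_).congr fun x => ?_
    · intro x k hk
      rw [List.length_replicate] at hk
      obtain ⟨h1, h2⟩ := step_inv x.1 x.2 k
      have h3 := sz_list_lt _ h2
      rw [h1] at h3
      refine h3.trans ?_
      have h4 := length_lt_sz x.1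
      have h5 : sz x = sz x.1 + sz x.2 + 1 := sz_pair x.1 x.2
      have h6 : x.1.length ≤ sz x := by omega
      have h7 : k ≤ sz x ^ 2 := by
        refine hk.trans ?_
        unfold M
        rw [pow_two]
        exact Nat.mul_le_mul h6 h6
      simp only [Polynomial.eval_add, Polynomial.eval_mul, Polynomial.eval_X,
        Polynomial.eval_pow, Polynomial.eval_ofNat, Polynomial.eval_one]
      have h8 : x.1.length * (4 * (k + 1) + 2) ≤ sz x * (4 * (sz x ^ 2 + 1) + 2) :=
        Nat.mul_le_mul h6 (by omega)
      omega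
    · rw [List.length_replicate]
  exact p_cols hm hr e4

end Pool.Agent.NPC.R7h992

namespace Pool.Agent.Run7.h992.NR

/-- Piece POLY: the algorithm runs in polynomial time. -/
theorem t_POLY : Pool.Agent.Run7.h412.NR.S_POLY := Pool.Agent.NPC.R7h992.t_POLY

end Pool.Agent.Run7.h992.NR
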