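import Pool.Agent.Run7.h412.NR.Iface

set_option autoImplicit false

/-!
# Piece POLY of project MP_0272f9_lc, part A: the ingredients of the algorithm are
polynomial-time computable
-/

namespace Pool.Agent.NPC.R7h992
open Pool.Agent.Run7.h412.NR

variable {α : Type} [TEnc α]

/-! ### Parameters -/

theorem p_size {n : α → ℕ} (hn : Poly n) : UPoly (fun a => (n a).size) :=
  Poly.congr (UPoly.length hn.natBits) fun a => by simp only [Nat.size_eq_bits_len]

theorem p_T {n : α → ℕ} (hn : UPoly n) : UPoly (fun a => Run7.h412.NR.T (n a)) :=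
  UPoly.add (p_size hn.toPoly) (UPoly.const 1)

theorem p_M {n : α → ℕ} (hn : UPoly n) : UPoly (fun a => M (n a)) := UPoly.mul hn hn

theorem p_N {n : α → ℕ} (hn : UPoly n) : UPoly (fun a => N (n a)) :=
  UPoly.add (UPoly.mul hn hn) (UPoly.const 1)

theorem p_Jm {n : α → ℕ} (hn : UPoly n) : UPoly (fun a => Jm (n a)) :=
  p_size (Poly.mul (Poly.const 16) (Poly.mul hn.toPoly hn.toPoly))

theorem p_lam {n : α → ℕ} (hn : UPoly n) : UPoly (fun a => lam (n a)) :=
  p_size (Poly.mul (Poly.const 4) (p_T hn).toPoly)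

theorem p_Lm {n : α → ℕ} (hn : UPoly n) : UPoly (fun a => Lm (n a)) :=
  UPoly.mul (UPoly.const 8) (p_T hn)

theorem p_jj {n : α → ℕ} (hn : UPoly n) : UPoly (fun a => jj (n a)) :=
  UPoly.mul (UPoly.add (UPoly.mul (UPoly.const 2) (p_T hn)) (UPoly.const 2))
    (UPoly.add (p_size hn.toPoly) (UPoly.const 1))

theorem p_Hc {n : α → ℕ} (hn : UPoly n) : UPoly (fun a => Hc (n a)) :=
  UPoly.mul (UPoly.mul (UPoly.const 16) (UPoly.mul hn hn)) (p_jj hn)

theorem p_P2 {n : α → ℕ} (hn : UPoly n) : UPoly (fun a => P2 (n a)) :=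
  UPoly.mul (UPoly.mul hn (p_N hn)) (p_Jm hn)

/-! ### Reading -/

theorem p_blk {r : α → List Bool} {o J : α → ℕ} (hr : Poly r) (ho : Poly o) (hJ : UPoly J) :
    Poly (fun a => blk (r a) (o a) (J a)) :=
  Poly.valBits (Poly.map (F := fun a i => (r a).getD (o a + i) false) hJ.range
    (Poly.getD (hr.comp (Poly.fst Poly.id)) (Poly.add (ho.comp (Poly.fst Poly.id))
      (Poly.snd Poly.id)) (Poly.const false)))

theorem p_adj {m : α → List (List Bool)} {x y : α → ℕ} (hm : Poly m) (hx : Poly x) (hy : Poly y) :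
    Poly (fun a => adj (m a) (x a) (y a)) :=
  Poly.getD (Poly.getD hm hx (Poly.const [])) hy (Poly.const false)

theorem p_deg {m : α → List (List Bool)} {x : α → ℕ} (hm : Poly m) (hx : Poly x) :
    Poly (fun a => deg (m a) (x a)) :=
  Poly.length (Poly.filter (p := fun _ b => b) (Poly.getD hm hx (Poly.const []))
    (Poly.snd Poly.id))

theorem deg_le (m : List (List Bool)) (x : ℕ) : deg m x ≤ sz m := by
  unfold deg
  refine (List.length_filter_le _ _).trans ?_
  rw [List.getD_eq_getElem?_getD]
  cases h : m[x]? with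
  | none => simp
  | some l =>
    simp only [Option.getD_some]
    have h1 := sz_le_of_mem (List.mem_of_getElem? h)
    have h2 := length_lt_sz l
    omega

theorem p_maxDeg {m : α → List (List Bool)} (hm : Poly m) : Poly (fun a => maxDeg (m a)) := by
  obtain ⟨r, hr⟩ := hm.sz_le
  refine Poly.foldl (l := fun a => List.range (m a).length) (s := fun _ => 0)
    (F := fun a b x => Max.max b (deg (m a) x)) (Poly.range_length hm) (Poly.const 0)
    (Poly.max (Poly.fst (Poly.snd Poly.id)) (p_deg (hm.comp (Poly.fst Poly.id))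
      (Poly.snd (Poly.snd Poly.id)))) (Polynomial.C 4 * r + Polynomial.C 1) ?_
  intro a k _
  have key : ∀ (l : List ℕ) (b : ℕ), b ≤ sz (m a) →
      l.foldl (fun b x => Max.max b (deg (m a) x)) b ≤ sz (m a) := by
    intro l
    induction l with
    | nil => intro b hb; exact hb
    | cons x l ih => intro b hb; exact ih _ (max_le hb (deg_le _ _))
  have h1 := key ((List.range (m a).length).take k) 0 (Nat.zero_le _)
  have h2 := sz_nat_le (((List.range (m a).length).take k).foldl
    (fun b x => Max.max b (deg (m a) x)) 0)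
  have h3 := Poly.size_le_self (((List.range (m a).length).take k).foldl
    (fun b x => Max.max b (deg (m a) x)) 0)
  have h4 := hr a
  simp only [Polynomial.eval_add, Polynomial.eval_mul, Polynomial.eval_C]
  omega

theorem p_Jb {m : α → List (List Bool)} (hm : Poly m) : UPoly (fun a => Jb (m a)) :=
  p_size (Poly.mul (Poly.const 16) (Poly.mul (p_maxDeg hm) (p_maxDeg hm)))

theorem p_colv {m : α → List (List Bool)} {r : α → List Bool} {cnt : α → List ℕ} {v : α → ℕ}
    (hm : Poly m) (hr : Poly r) (hc : Poly cnt) (hv : Poly v) :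
    Poly (fun a => colv (m a) (r a) (cnt a) (v a)) :=
  p_blk hr (Poly.mul (Poly.add (Poly.mul hv (p_N (UPoly.length hm)).toPoly)
    (Poly.getD hc hv (Poly.const 0))) (p_Jm (UPoly.length hm)).toPoly) (p_Jb hm)

theorem p_cols {m : α → List (List Bool)} {r : α → List Bool} {cnt : α → List ℕ}
    (hm : Poly m) (hr : Poly r) (hc : Poly cnt) :
    Poly (fun a => cols (m a) (r a) (cnt a)) :=
  Poly.map (F := fun a v => colv (m a) (r a) (cnt a) v) (Poly.range_length hm)
    (p_colv (hm.comp (Poly.fst Poly.id)) (hr.comp (Poly.fst Poly.id))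
      (hc.comp (Poly.fst Poly.id)) (Poly.snd Poly.id))

theorem p_labs {m : α → List (List Bool)} {r : α → List Bool} {ρ : α → ℕ}
    (hm : Poly m) (hr : Poly r) (hρ : Poly ρ) :
    Poly (fun a => labs (m a) (r a) (ρ a)) := by
  have hm' : Poly (fun p : α × ℕ => m p.1) := hm.comp (Poly.fst Poly.id)
  exact Poly.map (F := fun a v => blk (r a) (P2 (m a).length + (ρ a * (m a).length + v) *
    lam (m a).length) (lam (m a).length)) (Poly.range_length hm)
    (p_blk (hr.comp (Poly.fst Poly.id)) (Poly.add (p_P2 (UPoly.length hm')).toPoly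
      (Poly.mul (Poly.add (Poly.mul (hρ.comp (Poly.fst Poly.id)) (Poly.length hm'))
        (Poly.snd Poly.id)) (p_lam (UPoly.length hm')).toPoly)) (p_lam (UPoly.length hm')))

/-! ### The search -/

theorem p_used {h : α → List ℕ} {s : α → St} (hh : Poly h) (hs : Poly s) :
    Poly (fun a => used (h a) (s a)) :=
  Poly.map (F := fun a v => (h a).getD v 0) (Poly.append (Poly.fst hs) (Poly.snd hs))
    (Poly.getD (hh.comp (Poly.fst Poly.id)) (Poly.snd Poly.id) (Poly.const 0))

theorem p_ok {m : α → List (List Bool)} {c h : α → List ℕ} {s : α → St} {x y : α → ℕ}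
    (hm : Poly m) (hc : Poly c) (hh : Poly h) (hs : Poly s) (hx : Poly x) (hy : Poly y) :
    Poly (fun a => ok (m a) (c a) (h a) (s a) (x a) (y a)) := by
  have h0 : Poly (fun _ : α => 0) := Poly.const 0
  exact Poly.and (Poly.and (Poly.and (Poly.and (Poly.and
    (p_adj hm (Poly.head?_getD (Poly.fst hs) 0) hx) (p_adj hm (Poly.head?_getD (Poly.snd hs) 0) hy))
    (Poly.decide_eq (Poly.getD hc hx h0) (Poly.getD hc hy h0)))
    (Poly.not (Poly.decide_eq (Poly.getD hh hx h0) (Poly.getD hh hy h0))))
    (Poly.not (Poly.decide_mem (Poly.getD hh hx h0) (p_used hh hs))))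
    (Poly.not (Poly.decide_mem (Poly.getD hh hy h0) (p_used hh hs)))

theorem p_ext {m : α → List (List Bool)} {c h : α → List ℕ} {s : α → St}
    (hm : Poly m) (hc : Poly c) (hh : Poly h) (hs : Poly s) :
    Poly (fun a => ext (m a) (c a) (h a) (s a)) := by
  refine Poly.flatMap (F := fun a x => ((List.range (m a).length).filter fun y =>
    ok (m a) (c a) (h a) (s a) x y).map fun y => (x :: (s a).1, y :: (s a).2))
    (Poly.range_length hm) ?_
  refine Poly.map (α := α × ℕ) (l := fun p => (List.range (m p.1).length).filter fun y =>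
    ok (m p.1) (c p.1) (h p.1) (s p.1) p.2 y)
    (F := fun p y => (p.2 :: (s p.1).1, y :: (s p.1).2)) ?_ ?_
  · refine Poly.filter (α := α × ℕ) (l := fun p => List.range (m p.1).length)
      (p := fun p y => ok (m p.1) (c p.1) (h p.1) (s p.1) p.2 y)
      (Poly.range_length (hm.comp (Poly.fst Poly.id))) ?_
    exact p_ok (hm.comp (Poly.fst (Poly.fst Poly.id))) (hc.comp (Poly.fst (Poly.fst Poly.id)))
      (hh.comp (Poly.fst (Poly.fst Poly.id))) (hs.comp (Poly.fst (Poly.fst Poly.id)))
      (Poly.snd (Poly.fst Poly.id)) (Poly.snd Poly.id)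
  · have e1 : Poly (fun q : (α × ℕ) × ℕ => s q.1.1) := hs.comp (Poly.fst (Poly.fst Poly.id))
    exact Poly.pair (Poly.cons (Poly.snd (Poly.fst Poly.id)) (Poly.fst e1))
      (Poly.cons (Poly.snd Poly.id) (Poly.snd e1))

theorem p_key {L : α → ℕ} {h : α → List ℕ} {s : α → St} (hL : UPoly L) (hh : Poly h)
    (hs : Poly s) : Poly (fun a => key (L a) (h a) (s a)) := by
  refine Poly.pair (Poly.pair (Poly.head?_getD (Poly.fst hs) 0)
    (Poly.head?_getD (Poly.snd hs) 0)) (Poly.pair
      (Poly.head?_getD (Poly.reverse (Poly.snd hs)) 0) ?_)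
  exact Poly.map (F := fun a l => decide (l ∈ used (h a) (s a))) hL.range
    (Poly.decide_mem (Poly.snd Poly.id) (p_used (hh.comp (Poly.fst Poly.id))
      (hs.comp (Poly.fst Poly.id))))

theorem sz_dedup_aux (L : ℕ) (h : List ℕ) (F : List St) : ∀ acc : List St,
    sz (F.foldl (fun acc s => if key L h s ∈ acc.map (key L h) then acc else s :: acc) acc) + 1 ≤
      sz F + sz acc := by
  induction F with
  | nil => intro acc; simp only [List.foldl_nil, sz_list_nil]; omega
  | cons s F ih =>
    intro acc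
    rw [List.foldl_cons]
    refine (ih _).trans ?_
    split_ifs
    · simp; omega
    · simp; omega

theorem p_dedup {L : α → ℕ} {h : α → List ℕ} {F : α → List St} (hL : UPoly L) (hh : Poly h)
    (hF : Poly F) : Poly (fun a => dedup (L a) (h a) (F a)) := by
  obtain ⟨r, hr⟩ := hF.sz_le
  refine Poly.foldl (l := F) (s := fun _ => ([] : List St))
    (F := fun a acc s => if key (L a) (h a) s ∈ acc.map (key (L a) (h a)) then acc
      else s :: acc) hF (Poly.const []) ?_ r ?_
  · have e1 : Poly (fun p : α × List St × St => p.2.1) := Poly.fst (Poly.snd Poly.id)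
    have e2 : Poly (fun p : α × List St × St => p.2.2) := Poly.snd (Poly.snd Poly.id)
    have e3 : Poly (fun p : α × List St × St => h p.1) := hh.comp (Poly.fst Poly.id)
    have e4 : UPoly (fun p : α × List St × St => L p.1) := UPoly.comp hL (Poly.fst Poly.id)
    have e5 : Poly (fun p : α × List St × St => p.2.1.map (key (L p.1) (h p.1))) :=
      Poly.map (α := α × List St × St) (F := fun p s => key (L p.1) (h p.1) s) e1
        (p_key (α := (α × List St × St) × St) (L := fun q => L q.1.1) (h := fun q => h q.1.1)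
          (s := fun q => q.2) (UPoly.comp hL (Poly.fst (Poly.fst Poly.id)))
          (hh.comp (Poly.fst (Poly.fst Poly.id))) (Poly.snd Poly.id))
    exact Poly.ite ((Poly.decide_mem (p_key e4 e3 e2) e5).congr fun a =>
      decide_eq_decide.mpr Iff.rfl) e1 (Poly.cons e2 e1)
  · intro a k _
    have h1 := sz_dedup_aux (L a) (h a) ((F a).take k) []
    have h2 := Poly.sz_take_le (F a) k
    have h3 := hr a
    simp only [sz_list_nil] at h1
    omega

theorem p_start {m : α → List (List Bool)} {c h : α → List ℕ}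
    (hm : Poly m) (hc : Poly c) (hh : Poly h) :
    Poly (fun a => start (m a) (c a) (h a)) := by
  refine Poly.flatMap (F := fun a x => ((List.range (m a).length).filter fun y =>
    decide ((c a).getD x 0 = (c a).getD y 0) && !decide ((h a).getD x 0 = (h a).getD y 0)).map
      fun y => (([x], [y]) : St)) (Poly.range_length hm) ?_
  refine Poly.map (α := α × ℕ) (l := fun p => (List.range (m p.1).length).filter fun y =>
    decide ((c p.1).getD p.2 0 = (c p.1).getD y 0) &&
      !decide ((h p.1).getD p.2 0 = (h p.1).getD y 0))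
    (F := fun p y => (([p.2], [y]) : St)) ?_ ?_
  · refine Poly.filter (α := α × ℕ) (l := fun p => List.range (m p.1).length)
      (p := fun p y => decide ((c p.1).getD p.2 0 = (c p.1).getD y 0) &&
        !decide ((h p.1).getD p.2 0 = (h p.1).getD y 0))
      (Poly.range_length (hm.comp (Poly.fst Poly.id))) ?_
    have e1 : Poly (fun q : (α × ℕ) × ℕ => c q.1.1) := hc.comp (Poly.fst (Poly.fst Poly.id))
    have e2 : Poly (fun q : (α × ℕ) × ℕ => h q.1.1) := hh.comp (Poly.fst (Poly.fst Poly.id))
    have e3 : Poly (fun q : (α × ℕ) × ℕ => q.1.2) := Poly.snd (Poly.fst Poly.id)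
    have e4 : Poly (fun q : (α × ℕ) × ℕ => q.2) := Poly.snd Poly.id
    have e0 : Poly (fun _ : (α × ℕ) × ℕ => 0) := Poly.const 0
    exact Poly.and (Poly.decide_eq (Poly.getD e1 e3 e0) (Poly.getD e1 e4 e0))
      (Poly.not (Poly.decide_eq (Poly.getD e2 e3 e0) (Poly.getD e2 e4 e0)))
  · exact Poly.pair (Poly.cons (Poly.snd (Poly.fst Poly.id)) (Poly.const []))
      (Poly.cons (Poly.snd Poly.id) (Poly.const []))

theorem p_closed {m : α → List (List Bool)} {F : α → List St} (hm : Poly m) (hF : Poly F) :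
    Poly (fun a => closed (m a) (F a)) := by
  refine Poly.filter (p := fun a (s : St) => adj (m a) (s.1.head?.getD 0)
    (s.2.reverse.head?.getD 0)) hF ?_
  exact p_adj (hm.comp (Poly.fst Poly.id)) (Poly.head?_getD (Poly.fst (Poly.snd Poly.id)) 0)
    (Poly.head?_getD (Poly.reverse (Poly.snd (Poly.snd Poly.id))) 0)

theorem p_round {m : α → List (List Bool)} {c h : α → List ℕ} {b : α → List St × List ℕ}
    (hm : Poly m) (hc : Poly c) (hh : Poly h) (hb : Poly b) :
    Poly (fun a => Run7.h412.NR.round (m a) (c a) (h a) (b a)) := by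
  have e1 : Poly (fun a => (b a).1.flatMap (ext (m a) (c a) (h a))) := by
    refine Poly.flatMap (F := fun a s => ext (m a) (c a) (h a) s) (Poly.fst hb) ?_
    exact p_ext (hm.comp (Poly.fst Poly.id)) (hc.comp (Poly.fst Poly.id))
      (hh.comp (Poly.fst Poly.id)) (Poly.snd Poly.id)
  have e2 : Poly (fun a => (dedup (Lm (m a).length) (h a)
      ((b a).1.flatMap (ext (m a) (c a) (h a))), ([] : List ℕ))) :=
    Poly.pair (p_dedup (p_Lm (UPoly.length hm)) hh e1) (Poly.const [])
  have e3 : Poly (fun p : α × St => ((b p.1).1, p.2.1.reverse ++ p.2.2.reverse)) :=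
    Poly.pair (Poly.fst (hb.comp (Poly.fst Poly.id)))
      (Poly.append (Poly.reverse (Poly.fst (Poly.snd Poly.id)))
        (Poly.reverse (Poly.snd (Poly.snd Poly.id))))
  have e4 : Poly (fun a => (closed (m a) (b a).1).head?) :=
    Poly.head? (p_closed hm (Poly.fst hb))
  refine (Poly.ite (p := fun a => (b a).2 = []) (Poly.decide_eq (Poly.snd hb) (Poly.const []))
    (Poly.optCases (h := fun a s => ((b a).1, s.1.reverse ++ s.2.reverse)) e4 e2 e3)
    hb).congr fun a => ?_
  unfold Run7.h412.NR.round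
  split_ifs
  · cases (closed (m a) (b a).1).head? <;> rfl
  · rfl

end Pool.Agent.NPC.R7h992
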